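import Mathlib

/-!
# No ccs Delta-points in spaces with property (A)

If `T` is an operator with relatively compact image of the unit ball, `‖Id - T‖ < 2` and `T x` is
close to `x`, then `x` is not a ccs Delta-point.  In particular Banach spaces with property (A)
have no ccs Delta-points.
-/

namespace Pool.Agent.Results.MP_d10958_an.NoCcsDeltaPoint

section Defs

variable (𝕜 : Type*) [RCLike 𝕜] {X : Type*} [NormedAddCommGroup X] [NormedSpace 𝕜 X]

/-- The slice `{x ∈ B_X : Re f(x) > M - δ}`, where `M` is the supremum of `Re f` over `B_X`. -/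
def slice (f : StrongDual 𝕜 X) (δ : ℝ) : Set X :=
  {x | ‖x‖ ≤ 1 ∧
    sSup ((fun y => RCLike.re (f y)) '' Metric.closedBall (0 : X) 1) - δ < RCLike.re (f x)}

/-- `C` is a convex combination of slices of `B_X`. -/
def IsCcs (C : Set X) : Prop :=
  ∃ (n : ℕ) (f : Fin n → StrongDual 𝕜 X) (δ l : Fin n → ℝ),
    (∀ i, 0 < δ i) ∧ (∀ i, 0 < l i) ∧ ∑ i, l i = 1 ∧
    C = {y | ∃ u : Fin n → X, (∀ i, u i ∈ slice 𝕜 (f i) (δ i)) ∧
      y = ∑ i, ((l i : ℝ) : 𝕜) • u i}

/-- `x` is a ccs Delta-point. -/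
def CcsDeltaPoint (x : X) : Prop :=
  ‖x‖ = 1 ∧ ∀ C : Set X, IsCcs 𝕜 C → x ∈ C → sSup ((fun y => ‖x - y‖) '' C) = 2

variable (X) in
/-- Property (A): approximation of the identity by finite-rank operators `T` with
`‖Id - T‖ ≤ c < 2`. -/
def PropertyA : Prop :=
  ∃ 𝒜 : Set (X →L[𝕜] X), (∀ T ∈ 𝒜, FiniteDimensional 𝕜 (LinearMap.range T.toLinearMap)) ∧
    (∃ c : ℝ, c < 2 ∧ ∀ T ∈ 𝒜, ‖ContinuousLinearMap.id 𝕜 X - T‖ ≤ c) ∧
    ∀ ε : ℝ, 0 < ε → ∀ x : X, ∃ T ∈ 𝒜, ‖x - T x‖ < ε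

variable (X) in
/-- Property (A) for compact operators instead of finite-rank operators. -/
def CompactPropertyA : Prop :=
  ∃ 𝒜 : Set (X →L[𝕜] X), (∀ T ∈ 𝒜, IsCompactOperator T) ∧
    (∃ c : ℝ, c < 2 ∧ ∀ T ∈ 𝒜, ‖ContinuousLinearMap.id 𝕜 X - T‖ ≤ c) ∧
    ∀ ε : ℝ, 0 < ε → ∀ x : X, ∃ T ∈ 𝒜, ‖x - T x‖ < ε

end Defs

variable {𝕜 : Type*} [RCLike 𝕜] {X : Type*} [NormedAddCommGroup X] [NormedSpace 𝕜 X]

lemma re_le (g : StrongDual 𝕜 X) (hg : ‖g‖ ≤ 1) (z : X) : RCLike.re (g z) ≤ ‖z‖ :=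
  (RCLike.re_le_norm _).trans ((g.le_opNorm z).trans
    (mul_le_of_le_one_left (norm_nonneg _) hg))

theorem main (T : X →L[𝕜] X) (hT : TotallyBounded (T '' Metric.closedBall (0 : X) 1))
    (c ε : ℝ) (hε : 0 < ε) (hc : ‖ContinuousLinearMap.id 𝕜 X - T‖ ≤ c) (hcε : c + 4 * ε ≤ 2)
    (x : X) (hTx : ‖x - T x‖ < ε) : ¬ CcsDeltaPoint 𝕜 x := by
  classical
  rintro ⟨hx, hccs⟩
  letI : NormedSpace ℝ X := NormedSpace.restrictScalars ℝ 𝕜 X
  haveI : IsScalarTower ℝ 𝕜 X := by
    refine ⟨fun a b z => ?_⟩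
    show (a • b) • z = ((a : ℝ) : 𝕜) • (b • z)
    rw [smul_smul, RCLike.real_smul_eq_coe_mul]
  obtain ⟨t, ht, hcov⟩ := Metric.totallyBounded_iff.1 hT (ε / 2) (by positivity)
  set D : Set X := T '' Metric.closedBall (0 : X) 1 with hD
  let K : X → Set X := fun y => D ∩ Metric.ball y (ε / 2)
  let H : Finset X → Set X := fun R => closure (convexHull ℝ (⋃ y ∈ R, K y))
  let 𝓡 : Finset (Finset X) := ht.toFinset.powerset.filter fun R => T x ∉ H R
  have hmem : ∀ R, R ∈ 𝓡 ↔ (R ⊆ ht.toFinset ∧ T x ∉ H R) := by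
    intro R
    rw [Finset.mem_filter, Finset.mem_powerset]
  have hempty : (∅ : Finset X) ∈ 𝓡 := by
    rw [hmem]
    refine ⟨Finset.empty_subset _, ?_⟩
    simp [H]
  -- separating functionals
  have hsep : ∀ R : 𝓡, ∃ (f : StrongDual 𝕜 X) (a : ℝ), (∀ z ∈ H R.1, RCLike.re (f z) < a) ∧
      a < RCLike.re (f (T x)) := fun R =>
    RCLike.geometric_hahn_banach_closed_point (convex_convexHull ℝ _).closure isClosed_closure
      ((hmem R.1).1 R.2).2
  choose f a hfa haf using hsep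
  let M : 𝓡 → ℝ := fun R =>
    sSup ((fun y => RCLike.re ((f R).comp T y)) '' Metric.closedBall (0 : X) 1)
  have hbdd : ∀ R, BddAbove ((fun y => RCLike.re ((f R).comp T y)) ''
      Metric.closedBall (0 : X) 1) := by
    intro R
    refine ⟨‖(f R).comp T‖, ?_⟩
    rintro _ ⟨y, hy, rfl⟩
    rw [mem_closedBall_zero_iff] at hy
    refine (RCLike.re_le_norm _).trans ((((f R).comp T).le_opNorm y).trans ?_)
    exact mul_le_of_le_one_right (norm_nonneg _) hy
  have hM : ∀ R, a R < M R := by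
    intro R
    refine (haf R).trans_le (le_csSup (hbdd R) ⟨x, ?_, rfl⟩)
    rw [mem_closedBall_zero_iff, hx]
  have hslice : ∀ R u, u ∈ slice 𝕜 ((f R).comp T) (M R - a R) ↔
      (‖u‖ ≤ 1 ∧ a R < RCLike.re (f R (T u))) := by
    intro R u
    show (_ ∧ M R - (M R - a R) < _) ↔ _
    rw [sub_sub_cancel]
    rfl
  -- the convex combination of slices
  set n : ℕ := 𝓡.card with hn
  let e : Fin n ≃ 𝓡 := 𝓡.equivFin.symm
  have hn0 : 0 < n := Finset.card_pos.2 ⟨_, hempty⟩
  have hn0' : (0 : ℝ) < n := by exact_mod_cast hn0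
  set C : Set X := {y | ∃ u : Fin n → X,
      (∀ i, u i ∈ slice 𝕜 ((f (e i)).comp T) (M (e i) - a (e i))) ∧
      y = ∑ i, (((1 / n : ℝ) : ℝ) : 𝕜) • u i} with hC
  have hC1 : IsCcs 𝕜 C := by
    refine ⟨n, fun i => (f (e i)).comp T, fun i => M (e i) - a (e i), fun _ => 1 / n,
      fun i => sub_pos.2 (hM _), fun _ => by positivity, ?_, rfl⟩
    rw [Finset.sum_const, Finset.card_univ, Fintype.card_fin, nsmul_eq_mul]
    field_simp
  have hxC : x ∈ C := by
    refine ⟨fun _ => x, fun i => (hslice _ _).2 ⟨hx.le, haf _⟩, ?_⟩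
    rw [← Finset.sum_smul, Finset.sum_const, Finset.card_univ, Fintype.card_fin, nsmul_eq_mul]
    have : (n : 𝕜) * (((1 / n : ℝ) : ℝ) : 𝕜) = 1 := by
      have h1 : ((n : ℝ) : 𝕜) * (((1 / n : ℝ) : ℝ) : 𝕜) = ((n * (1 / n) : ℝ) : 𝕜) := by
        rw [RCLike.ofReal_mul]
      rw [RCLike.ofReal_natCast] at h1
      rw [h1, mul_one_div_cancel hn0'.ne', RCLike.ofReal_one]
    rw [this, one_smul]
  have hsup := hccs C hC1 hxC
  obtain ⟨_, ⟨y, ⟨u, hu, rfl⟩, rfl⟩, hy⟩ := exists_lt_of_lt_csSup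
    (s := (fun y => ‖x - y‖) '' C) ⟨_, x, hxC, rfl⟩
    (b := 2 - ε / n) (by rw [hsup]; have : 0 < ε / n := by positivity
                         linarith)
  have hu1 : ∀ i, ‖u i‖ ≤ 1 := fun i => ((hslice _ _).1 (hu i)).1
  have hu2 : ∀ i, a (e i) < RCLike.re (f (e i) (T (u i))) := fun i => ((hslice _ _).1 (hu i)).2
  -- the norming functional
  obtain ⟨g, hg, hgy⟩ := exists_dual_vector'' 𝕜 (x - ∑ i, (((1 / n : ℝ) : ℝ) : 𝕜) • u i)
  have hsum : ∑ i, (1 / n : ℝ) * RCLike.re (g (x - u i)) =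
      ‖x - ∑ i, (((1 / n : ℝ) : ℝ) : 𝕜) • u i‖ := by
    have h1 : RCLike.re (g (x - ∑ i, (((1 / n : ℝ) : ℝ) : 𝕜) • u i)) =
        ‖x - ∑ i, (((1 / n : ℝ) : ℝ) : 𝕜) • u i‖ := by
      rw [hgy, RCLike.ofReal_re]
    rw [← h1, map_sub, map_sum, map_sub, map_sum]
    have h2 : ∀ i, RCLike.re (g ((((1 / n : ℝ) : ℝ) : 𝕜) • u i)) =
        (1 / n : ℝ) * RCLike.re (g (u i)) := by
      intro i
      rw [map_smul, smul_eq_mul, RCLike.re_ofReal_mul]
    simp_rw [h2, map_sub]
    rw [← Finset.mul_sum, ← Finset.mul_sum, Finset.sum_sub_distrib, Finset.sum_const,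
      Finset.card_univ, Fintype.card_fin, nsmul_eq_mul]
    field_simp
  have hle : ∀ i, RCLike.re (g (x - u i)) ≤ 2 := by
    intro i
    refine (re_le g hg _).trans ((norm_sub_le _ _).trans ?_)
    rw [hx]; linarith [hu1 i]
  have hbig : ∀ i, 2 - ε < RCLike.re (g (x - u i)) := by
    intro i
    by_contra hcon
    push Not at hcon
    have h1 : ∑ j, (1 / n : ℝ) * RCLike.re (g (x - u j)) ≤
        ∑ j, (1 / n : ℝ) * (if j = i then 2 - ε else 2) := by
      refine Finset.sum_le_sum fun j _ => mul_le_mul_of_nonneg_left ?_ (by positivity)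
      split_ifs with hj
      · rw [hj]; exact hcon
      · exact hle j
    have h2 : ∑ j : Fin n, (1 / n : ℝ) * (if j = i then 2 - ε else 2) = 2 - ε / n := by
      rw [← Finset.mul_sum]
      have : ∀ j : Fin n, (if j = i then 2 - ε else 2) = 2 - (if j = i then ε else 0) := by
        intro j; split_ifs <;> ring
      simp_rw [this]
      rw [Finset.sum_sub_distrib, Finset.sum_ite_eq' Finset.univ i, if_pos (Finset.mem_univ i),
        Finset.sum_const, Finset.card_univ, Fintype.card_fin, nsmul_eq_mul]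
      field_simp
    rw [hsum, h2] at h1
    exact absurd hy (not_lt.2 h1)
  have hgx1 : RCLike.re (g x) ≤ 1 := by rw [← hx]; exact re_le g hg x
  have hgu : ∀ i, RCLike.re (g (u i)) < -1 + ε := by
    intro i
    have := hbig i
    rw [map_sub, map_sub] at this
    linarith
  have hgx : 1 - ε < RCLike.re (g x) := by
    have h1 := hbig ⟨0, hn0⟩
    rw [map_sub, map_sub] at h1
    have h2 : -RCLike.re (g (u ⟨0, hn0⟩)) ≤ 1 := by
      have := re_le g hg (-u ⟨0, hn0⟩)
      rw [map_neg, map_neg, norm_neg] at this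
      exact this.trans (hu1 _)
    linarith
  -- clusters of the images
  have hTu : ∀ i, T (u i) ∈ D := fun i => ⟨u i, by
    rw [mem_closedBall_zero_iff]; exact hu1 i, rfl⟩
  have hs : ∀ i, ∃ y ∈ t, T (u i) ∈ Metric.ball y (ε / 2) := by
    intro i
    have := hcov (hTu i)
    simpa only [Set.mem_iUnion, exists_prop] using this
  choose s hst hsb using hs
  have hsR : ∀ i, s i ∉ (e i).1 := by
    intro i hmem'
    have h1 : T (u i) ∈ H (e i).1 := by
      refine subset_closure (subset_convexHull ℝ _ ?_)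
      simp only [Set.mem_iUnion, exists_prop]
      exact ⟨s i, hmem', hTu i, hsb i⟩
    exact absurd (hu2 i) (not_lt.2 (hfa (e i) _ h1).le)
  let Q : Finset X := Finset.univ.image s
  have hTxQ : T x ∈ H Q := by
    by_contra hcon
    have hQ : Q ∈ 𝓡 := by
      rw [hmem]
      refine ⟨?_, hcon⟩
      intro y hy
      obtain ⟨i, -, rfl⟩ := Finset.mem_image.1 hy
      exact ht.mem_toFinset.2 (hst i)
    have h1 := hsR (e.symm ⟨Q, hQ⟩)
    rw [Equiv.apply_symm_apply] at h1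
    exact h1 (Finset.mem_image_of_mem s (Finset.mem_univ _))
  -- the half-space
  have hgT : ∀ i, RCLike.re (g (T (u i))) ≤ -1 + ε + c := by
    intro i
    have h1 : T (u i) = u i - (ContinuousLinearMap.id 𝕜 X - T) (u i) := by simp
    have h2 : -RCLike.re (g ((ContinuousLinearMap.id 𝕜 X - T) (u i))) ≤ c := by
      have := re_le g hg (-((ContinuousLinearMap.id 𝕜 X - T) (u i)))
      rw [map_neg, map_neg, norm_neg] at this
      refine this.trans (((ContinuousLinearMap.id 𝕜 X - T).le_opNorm _).trans ?_)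
      exact (mul_le_of_le_one_right (norm_nonneg _) (hu1 i)).trans hc
    rw [h1, map_sub, map_sub]
    linarith [hgu i]
  have hhalf : H Q ⊆ {z | RCLike.re (g z) ≤ c - 1 + 2 * ε} := by
    have hcl : IsClosed {z : X | RCLike.re (g z) ≤ c - 1 + 2 * ε} :=
      isClosed_le (RCLike.continuous_re.comp g.continuous) continuous_const
    have hcv : Convex ℝ {z : X | RCLike.re (g z) ≤ c - 1 + 2 * ε} := by
      have hlin : IsLinearMap ℝ (fun z : X => RCLike.re (g z)) := by
        refine ⟨fun p q => by rw [map_add, map_add], fun r p => ?_⟩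
        have : r • p = ((r : ℝ) : 𝕜) • p := rfl
        rw [this, map_smul, smul_eq_mul, RCLike.re_ofReal_mul, smul_eq_mul]
      exact convex_halfSpace_le hlin _
    refine closure_minimal (convexHull_min ?_ hcv) hcl
    intro z hz
    simp only [Set.mem_iUnion, exists_prop] at hz
    obtain ⟨y, hyQ, -, hzy⟩ := hz
    obtain ⟨i, -, rfl⟩ := Finset.mem_image.1 hyQ
    have h1 : ‖z - T (u i)‖ ≤ ε := by
      rw [← dist_eq_norm]
      have h2 := hsb i
      rw [Metric.mem_ball] at hzy h2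
      have h3 := dist_triangle_right z (T (u i)) (s i)
      linarith
    have h4 := re_le g hg (z - T (u i))
    rw [map_sub, map_sub] at h4
    have := hgT i
    show RCLike.re (g z) ≤ _
    linarith
  have hfin : RCLike.re (g (T x)) ≤ c - 1 + 2 * ε := hhalf hTxQ
  have hfin2 : RCLike.re (g x) - RCLike.re (g (T x)) ≤ ε := by
    have := re_le g hg (x - T x)
    rw [map_sub, map_sub] at this
    linarith
  linarith

theorem no_ccsDelta_of_compact (h : CompactPropertyA 𝕜 X) (x : X) : ¬ CcsDeltaPoint 𝕜 x := by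
  intro hx
  obtain ⟨𝒜, hcomp, ⟨c, hc2, hc⟩, happ⟩ := h
  obtain ⟨T, hT, hTx⟩ := happ ((2 - c) / 4) (by linarith) x
  have htb : TotallyBounded (T '' Metric.closedBall (0 : X) 1) := by
    obtain ⟨K, hK, hsub⟩ := (hcomp T hT).image_closedBall_subset_compact (f := T.toLinearMap) 1
    exact hK.totallyBounded.subset hsub
  exact main T htb c ((2 - c) / 4) (by linarith) (hc T hT) (by linarith) x hTx hx

theorem no_ccsDelta (h : PropertyA 𝕜 X) (x : X) : ¬ CcsDeltaPoint 𝕜 x := by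
  intro hx
  obtain ⟨𝒜, hfin, ⟨c, hc2, hc⟩, happ⟩ := h
  obtain ⟨T, hT, hTx⟩ := happ ((2 - c) / 4) (by linarith) x
  have := hfin T hT
  have htb : TotallyBounded (T '' Metric.closedBall (0 : X) 1) := by
    have hprop : ProperSpace (LinearMap.range T.toLinearMap) := FiniteDimensional.proper 𝕜 _
    have h1 : T '' Metric.closedBall (0 : X) 1 ⊆
        (Subtype.val '' (Metric.closedBall (0 : LinearMap.range T.toLinearMap) ‖T‖)) := by
      rintro _ ⟨y, hy, rfl⟩
      rw [mem_closedBall_zero_iff] at hy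
      refine ⟨⟨T y, LinearMap.mem_range_self _ y⟩, ?_, rfl⟩
      rw [mem_closedBall_zero_iff]
      exact (T.le_opNorm y).trans (mul_le_of_le_one_right (norm_nonneg _) hy)
    exact (((isCompact_closedBall _ _).image continuous_subtype_val).totallyBounded).subset h1
  exact main T htb c ((2 - c) / 4) (by linarith) (hc T hT) (by linarith) x hTx hx

/-- **Main result.** Spaces with property (A), even with compact operators in place of
finite-rank operators, contain no ccs Delta-points. -/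
theorem result (𝕜 : Type*) [RCLike 𝕜] (X : Type*) [NormedAddCommGroup X] [NormedSpace 𝕜 X] :
    (PropertyA 𝕜 X → ∀ x : X, ¬ CcsDeltaPoint 𝕜 x) ∧
    (CompactPropertyA 𝕜 X → ∀ x : X, ¬ CcsDeltaPoint 𝕜 x) :=
  ⟨no_ccsDelta, no_ccsDelta_of_compact⟩

end Pool.Agent.Results.MP_d10958_an.NoCcsDeltaPoint
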